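import Pool.Agent.Helper40.DZ.Stmts

/-! EQR: equidistribution for Riemann integrable functions (MP_7a8f48_an). -/

open Finset Filter MeasureTheory Topology
open scoped ComplexConjugate

namespace Pool.Agent.Helper40.DZ

open Pool.Agent.Helper16.AZ (T mm)
open Pool.Agent.Helper16.BZ (EQ)

namespace H50

/-- the averages over `range N` -/
theorem eqr_range (ris : ST_RIS) {r : ℕ} {S : T r → T r} (h : EQ S (mm r)) {F : T r → ℂ}
    (hF : RI F) {p : ℕ} (hp : 1 ≤ p) (x : T r) :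
    Tendsto (fun N : ℕ => (∑ n ∈ range N, F (S^[p * n] x)) / (N : ℂ)) atTop
      (𝓝 (∫ y, F y ∂(mm r))) := by
  obtain ⟨C, hC⟩ := hF.2
  rw [Metric.tendsto_atTop]
  intro ε hε
  obtain ⟨G, R, hG, hR, h1, -, -, h4⟩ := ris r ℂ F C hF.1 hC (ε / 4) (by positivity)
  have hGI : Integrable G (mm r) := (RI.of_continuous hG).integrable
  have hRI : Integrable R (mm r) := (RI.of_continuous hR).integrable
  have e1 := h p hp G hG x
  have hRc : Continuous (fun y : T r => ((R y : ℝ) : ℂ)) := Complex.continuous_ofReal.comp hR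
  have e2 := h p hp (fun y => ((R y : ℝ) : ℂ)) hRc x
  rw [Metric.tendsto_atTop] at e1 e2
  obtain ⟨N1, hN1⟩ := e1 (ε / 4) (by positivity)
  obtain ⟨N2, hN2⟩ := e2 (ε / 4) (by positivity)
  refine ⟨max N1 N2, fun N hN => ?_⟩
  have a1 := hN1 N (le_trans (le_max_left _ _) hN)
  have a2 := hN2 N (le_trans (le_max_right _ _) hN)
  rw [dist_eq_norm] at a1 a2 ⊢
  -- the average of `R`
  obtain ⟨A, hA⟩ : ∃ A : ℝ, A = (∑ n ∈ range N, R (S^[p * n] x)) / (N : ℝ) := ⟨_, rfl⟩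
  have hA2 : (∑ n ∈ range N, ((R (S^[p * n] x) : ℝ) : ℂ)) / (N : ℂ) = ((A : ℝ) : ℂ) := by
    rw [hA]
    push_cast
    rfl
  have hI : ∫ y, ((R y : ℝ) : ℂ) ∂(mm r) = ((∫ y, R y ∂(mm r) : ℝ) : ℂ) := integral_ofReal
  rw [hA2, hI, ← Complex.ofReal_sub, Complex.norm_real, Real.norm_eq_abs] at a2
  have a3 : A ≤ ε / 4 + ε / 4 := by
    have := (abs_lt.1 a2).2
    linarith
  -- `F` and `G`
  have b1 : ‖(∑ n ∈ range N, F (S^[p * n] x)) / (N : ℂ) -
      (∑ n ∈ range N, G (S^[p * n] x)) / (N : ℂ)‖ ≤ A := by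
    rw [← sub_div, ← Finset.sum_sub_distrib, norm_div, Complex.norm_natCast, hA]
    refine div_le_div_of_nonneg_right ?_ (Nat.cast_nonneg N)
    refine (norm_sum_le _ _).trans (Finset.sum_le_sum fun n _ => h1 _)
  have b2 : ‖(∫ y, G y ∂(mm r)) - ∫ y, F y ∂(mm r)‖ ≤ ε / 4 := by
    rw [← integral_sub hGI hF.integrable]
    refine (norm_integral_le_of_norm_le hRI (Eventually.of_forall fun y => ?_)).trans h4
    rw [norm_sub_rev]
    exact h1 y
  have b3 : (∑ n ∈ range N, F (S^[p * n] x)) / (N : ℂ) - ∫ y, F y ∂(mm r) =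
      ((∑ n ∈ range N, F (S^[p * n] x)) / (N : ℂ) - (∑ n ∈ range N, G (S^[p * n] x)) / (N : ℂ)) +
      ((∑ n ∈ range N, G (S^[p * n] x)) / (N : ℂ) - ∫ y, G y ∂(mm r)) +
      ((∫ y, G y ∂(mm r)) - ∫ y, F y ∂(mm r)) := by ring
  rw [b3]
  refine lt_of_le_of_lt (norm_add₃_le) ?_
  linarith

end H50

/-- EQR -/
theorem st_EQR (ris : ST_RIS) : ST_EQR := by
  intro r S h F hF p x hp
  refine ⟨H50.eqr_range ris h hF hp x, ?_⟩
  have h2 := H50.eqr_range ris h hF hp (S^[p] x)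
  refine h2.congr fun N => ?_
  have e : Finset.Icc 1 N = Finset.Ico (0 + 1) (N + 1) := by
    ext k
    simp only [Finset.mem_Icc, Finset.mem_Ico]
    omega
  have e2 := Finset.sum_Ico_add' (fun n : ℕ => F (S^[p * n] x)) 0 N 1
  rw [e, ← e2, Finset.range_eq_Ico]
  refine congrArg (fun t : ℂ => t / (N : ℂ)) (Finset.sum_congr rfl fun n _ => ?_)
  rw [← Function.iterate_add_apply, mul_add, mul_one]

end Pool.Agent.Helper40.DZ
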